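import Pool.Agent.MP_bf2f06_lc.Defs
import Mathlib

-- part MP_bf2f06_lc.Lower
section

namespace Pool.Agent.MP_bf2f06_lc

open Finset

variable {V : Type} [Fintype V] [DecidableEq V]

omit [Fintype V] [DecidableEq V] in
theorem run_le {G : SimpleGraph V} {n : ℕ} (P : Protocol G n) (x : V → Fin n → Bool)
    (H : V → V → List Bool) (hH : ∀ v w, P.send v (x v) (fun u => H u v) w = H v w) :
    ∀ t v w, P.run x t v w <+: H v w := by
  intro t
  induction t with
  | zero => intro v w; exact List.nil_prefix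
  | succ t ih =>
    intro v w
    rw [← hH v w]
    exact P.send_mono v (x v) _ _ (fun u => ih u v) w

theorem card_lists_le {α ι : Type} [Fintype ι] [DecidableEq ι] (A : Finset α)
    (φ : α → ι → List Bool) (L : ℕ) (hinj : Set.InjOn φ A)
    (hL : ∀ a ∈ A, ∑ i, (φ a i).length ≤ L) :
    A.card ≤ 2 ^ L * (L + 1) ^ Fintype.card ι := by
  classical
  have h1 : A.card ≤ 2 ^ L * (A.image fun a i => (φ a i).length).card := by
    refine Finset.card_le_mul_card_image A _ fun lam hlam => ?_
    obtain ⟨a0, ha0, e0⟩ := Finset.mem_image.1 hlam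
    have h2 : ∑ i, lam i ≤ L := by rw [← e0]; exact hL a0 ha0
    have h3 : (A.filter fun a => (fun i => (φ a i).length) = lam).card ≤
        (Finset.univ : Finset ((Σ i, Fin (lam i)) → Bool)).card := by
      refine Finset.card_le_card_of_injOn (fun a p => (φ a p.1).getD p.2 false)
        (fun _ _ => Finset.mem_coe.2 (Finset.mem_univ _)) fun a ha b hb e => ?_
      rw [Finset.mem_coe, Finset.mem_filter] at ha hb
      refine hinj ha.1 hb.1 (funext fun i => ?_)
      have la : (φ a i).length = lam i := congrFun ha.2 i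
      have lb : (φ b i).length = lam i := congrFun hb.2 i
      refine List.ext_getElem (la.trans lb.symm) fun j j1 j2 => ?_
      have := congrFun e ⟨i, ⟨j, la ▸ j1⟩⟩
      simpa [List.getD_eq_getElem?_getD, List.getElem?_eq_getElem j1,
        List.getElem?_eq_getElem j2] using this
    refine h3.trans ?_
    simp only [Finset.card_univ, Fintype.card_fun, Fintype.card_bool, Fintype.card_sigma,
      Fintype.card_fin]
    exact Nat.pow_le_pow_right (by norm_num) h2
  refine h1.trans (Nat.mul_le_mul_left _ ?_)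
  have h4 : (A.image fun a i => (φ a i).length) ⊆ Fintype.piFinset fun _ : ι => range (L + 1) := by
    intro lam hlam
    obtain ⟨a0, ha0, e0⟩ := Finset.mem_image.1 hlam
    rw [Fintype.mem_piFinset]
    intro i
    rw [← e0, Finset.mem_range]
    have := Finset.single_le_sum (f := fun i => (φ a0 i).length) (fun _ _ => Nat.zero_le _)
      (Finset.mem_univ i)
    have := hL a0 ha0
    show (φ a0 i).length < L + 1
    omega
  refine (Finset.card_le_card h4).trans ?_
  simp

theorem lower_bound {G : SimpleGraph V} {n c L : ℕ} (P : Protocol G n) (hP : P.Decides c)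
    (hL : Fintype.card (Cut V) * (2 ^ L * (L + 1) ^ Fintype.card (V × V)) < 2 ^ n)
    (g : Cut V → ℝ) (hg : IsPacking G g) : (L : ℝ) * ∑ S, g S ≤ c := by
  classical
  choose τ h1 h2 h3 using hP
  set T : (Fin n → Bool) → V → V → List Bool := fun x => P.run (fun _ => x) (τ fun _ => x) with hT
  have fixT : ∀ x v w, P.send v x (fun u => T x u v) w = T x v w := fun x v w =>
    congrFun (congrFun (h1 fun _ => x) v) w
  have outT : ∀ x v, P.out v x (fun u => T x u v) = some true := by
    intro x v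
    obtain ⟨b, hb, hb'⟩ := h3 (fun _ => x) v
    rw [hb'.2 fun _ _ => rfl] at hb
    exact hb
  set φ : Cut V → (Fin n → Bool) → V × V → List Bool := fun S x p =>
    if ¬ (p.1 ∈ S.1 ↔ p.2 ∈ S.1) then T x p.1 p.2 else [] with hφ
  have hinj : ∀ S, Function.Injective (φ S) := by
    intro S x y e
    by_contra hxy
    have e' : ∀ u v, ¬ (u ∈ S.1 ↔ v ∈ S.1) → T x u v = T y u v := by
      intro u v h
      have := congrFun e (u, v)
      simpa [hφ, h] using this
    set z : V → Fin n → Bool := fun v => if v ∈ S.1 then x else y with hz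
    set H : V → V → List Bool := fun u v => if v ∈ S.1 then T x u v else T y u v with hH
    have fixH : ∀ v w, P.send v (z v) (fun u => H u v) w = H v w := by
      intro v w
      by_cases hv : v ∈ S.1 <;> by_cases hw : w ∈ S.1
      · simp [hz, hH, hv, hw, fixT]
      · simp only [hz, hH, hv, hw, if_true, if_false, fixT]
        exact e' v w (by tauto)
      · simp only [hz, hH, hv, hw, if_true, if_false, fixT]
        exact (e' v w (by tauto)).symm
      · simp [hz, hH, hv, hw, fixT]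
    obtain ⟨v, hv⟩ := S.2.1
    obtain ⟨w, hw⟩ : ∃ w, w ∉ S.1 := by
      by_contra hc
      push Not at hc
      exact S.2.2 (Finset.eq_univ_iff_forall.2 hc)
    obtain ⟨b, hb, hb'⟩ := h3 z v
    have := P.out_mono v (z v) _ _ b (fun u => run_le P z H fixH (τ z) u v) hb
    simp only [hz, hH, hv, if_true, outT] at this
    have hb2 : b = true := (Option.some.inj this).symm
    have := hb'.1 hb2 v w
    simp only [hz, hv, hw, if_true, if_false] at this
    exact hxy this
  obtain ⟨x, hx⟩ : ∃ x, ∀ S, L < ∑ p, (φ S x p).length := by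
    by_contra hc
    push Not at hc
    have hsub : (Finset.univ : Finset (Fin n → Bool)) ⊆
        Finset.univ.biUnion fun S : Cut V => Finset.univ.filter fun x => ∑ p, (φ S x p).length ≤ L := by
      intro x _
      obtain ⟨S, hS⟩ := hc x
      exact Finset.mem_biUnion.2 ⟨S, Finset.mem_univ _, Finset.mem_filter.2 ⟨Finset.mem_univ _, hS⟩⟩
    have h5 := (Finset.card_le_card hsub).trans (Finset.card_biUnion_le_card_mul _ _
      (2 ^ L * (L + 1) ^ Fintype.card (V × V)) fun S _ =>
        card_lists_le _ (φ S) L (hinj S).injOn fun a ha => (Finset.mem_filter.1 ha).2)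
    simp only [Finset.card_univ, Fintype.card_fun, Fintype.card_bool, Fintype.card_fin] at h5
    omega
  have hc : ∑ p : V × V, ((T x p.1 p.2).length : ℝ) ≤ c := by
    rw [Fintype.sum_prod_type]
    exact_mod_cast h2 fun _ => x
  refine le_trans ?_ hc
  calc (L : ℝ) * ∑ S, g S = ∑ S, g S * L := by rw [Finset.mul_sum]; simp [mul_comm]
    _ ≤ ∑ S, g S * ∑ p, ((φ S x p).length : ℝ) := by
        refine Finset.sum_le_sum fun S _ => mul_le_mul_of_nonneg_left ?_ (hg.1 S).1
        exact_mod_cast (hx S).le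
    _ = ∑ p : V × V, (∑ S ∈ Finset.univ.filter (fun S : Cut V => ¬ (p.1 ∈ S.1 ↔ p.2 ∈ S.1)), g S)
          * ((T x p.1 p.2).length : ℝ) := by
        simp only [Finset.mul_sum]
        rw [Finset.sum_comm]
        refine Finset.sum_congr rfl fun p _ => ?_
        rw [Finset.sum_mul, Finset.sum_filter]
        refine Finset.sum_congr rfl fun S _ => ?_
        by_cases h : (p.1 ∈ S.1 ↔ p.2 ∈ S.1) <;> simp [hφ, h]
    _ ≤ ∑ p : V × V, ((T x p.1 p.2).length : ℝ) := by
        refine Finset.sum_le_sum fun p _ => ?_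
        by_cases h : G.Adj p.1 p.2
        · exact mul_le_of_le_one_left (Nat.cast_nonneg _) (hg.2 _ _ h)
        · rw [← fixT, P.send_adj _ _ _ _ h]; simp

end Pool.Agent.MP_bf2f06_lc

end

-- part MP_bf2f06_lc.LP
section

namespace Pool.Agent.MP_bf2f06_lc

open Finset

variable {V : Type} [Fintype V] [DecidableEq V]

theorem exists_cross {G : SimpleGraph V} (hG : G.Connected) (S : Cut V) :
    ∃ u v, G.Adj u v ∧ ¬ (u ∈ S.1 ↔ v ∈ S.1) := by
  obtain ⟨v, hv⟩ := S.2.1
  obtain ⟨w, hw⟩ : ∃ w, w ∉ S.1 := by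
    by_contra hc
    push Not at hc
    exact S.2.2 (Finset.eq_univ_iff_forall.2 hc)
  by_contra hc
  push Not at hc
  obtain ⟨p⟩ := hG.preconnected v w
  have : ∀ {a b : V} (_ : G.Walk a b), a ∈ S.1 ↔ b ∈ S.1 := by
    intro a b q
    induction q with
    | nil => rfl
    | cons h _ ih => exact (hc _ _ h).trans ih
  exact hw ((this p).1 hv)

theorem packing_bdd (G : SimpleGraph V) :
    BddAbove {s | ∃ g, IsPacking G g ∧ s = ∑ S, g S} := by
  refine ⟨Fintype.card (Cut V), ?_⟩
  rintro s ⟨g, hg, rfl⟩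
  calc ∑ S, g S ≤ ∑ _S : Cut V, (1 : ℝ) := Finset.sum_le_sum fun S _ => (hg.1 S).2
    _ = _ := by simp

theorem packing_zero (G : SimpleGraph V) : IsPacking G fun _ => 0 :=
  ⟨fun _ => ⟨le_rfl, zero_le_one⟩, fun _ _ _ => by simp⟩

theorem le_fc {G : SimpleGraph V} {g : Cut V → ℝ} (hg : IsPacking G g) : ∑ S, g S ≤ fc G :=
  le_csSup (packing_bdd G) ⟨g, hg, rfl⟩

theorem fc_nonneg (G : SimpleGraph V) : 0 ≤ fc G := by
  simpa using le_fc (packing_zero G)

theorem fc_le {G : SimpleGraph V} {x : ℝ} (h : ∀ g, IsPacking G g → ∑ S, g S ≤ x) : fc G ≤ x := by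
  refine csSup_le ⟨_, _, packing_zero G, rfl⟩ ?_
  rintro s ⟨g, hg, rfl⟩
  exact h g hg

/-- ordered pairs of adjacent vertices -/
abbrev Arc (G : SimpleGraph V) : Type := {p : V × V // G.Adj p.1 p.2}

/-- linear programming duality -/
theorem lp_dual {G : SimpleGraph V} [DecidableRel G.Adj] (hG : G.Connected) {F : ℝ}
    (hF : fc G < F) :
    ∃ w : Arc G → ℝ, (∀ d, 0 ≤ w d) ∧ ∑ d, w d ≤ F ∧
      ∀ S : Cut V, 1 ≤ ∑ d : Arc G, if ¬ (d.1.1 ∈ S.1 ↔ d.1.2 ∈ S.1) then w d else 0 := by
  have hF0 : 0 < F := (fc_nonneg G).trans_lt hF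
  set χ : Cut V → Arc G → ℝ := fun S d => if ¬ (d.1.1 ∈ S.1 ↔ d.1.2 ∈ S.1) then 1 else 0 with hχ
  set A : (Cut V → ℝ) →ₗ[ℝ] (Arc G → ℝ) := Fintype.linearCombination ℝ χ with hA
  have hAapp : ∀ l d, A l d = ∑ S, l S * χ S d := by
    intro l d
    simp [hA, Fintype.linearCombination_apply, Finset.sum_apply]
  set U : Set (Arc G → ℝ) := Set.pi Set.univ fun _ => Set.Iio F⁻¹ with hU
  have hUc : Convex ℝ U := convex_pi fun _ _ => convex_Iio _
  have hUo : IsOpen U := isOpen_set_pi Set.finite_univ fun _ _ => isOpen_Iio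
  have hKc : Convex ℝ (A '' stdSimplex ℝ (Cut V)) := (convex_stdSimplex ℝ _).linear_image A
  have hdis : Disjoint U (A '' stdSimplex ℝ (Cut V)) := by
    rw [Set.disjoint_left]
    rintro y hy ⟨l, hl, rfl⟩
    have hload : ∀ u v, G.Adj u v →
        ∑ S ∈ Finset.univ.filter (fun S : Cut V => ¬ (u ∈ S.1 ↔ v ∈ S.1)), F * l S ≤ 1 := by
      intro u v h
      have h1 : A l ⟨(u, v), h⟩ < F⁻¹ := hy _ (Set.mem_univ _)
      rw [hAapp] at h1
      rw [← Finset.mul_sum, Finset.sum_filter]
      have h2 : ∑ S : Cut V, (if ¬ (u ∈ S.1 ↔ v ∈ S.1) then l S else 0)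
          = ∑ S, l S * χ S ⟨(u, v), h⟩ := by
        refine Finset.sum_congr rfl fun S _ => ?_
        by_cases h3 : (u ∈ S.1 ↔ v ∈ S.1) <;> simp [hχ, h3]
      rw [h2]
      calc F * ∑ S, l S * χ S ⟨(u, v), h⟩ ≤ F * F⁻¹ := by gcongr
        _ = 1 := mul_inv_cancel₀ hF0.ne'
    have hp : IsPacking G fun S => F * l S := by
      refine ⟨fun S => ⟨mul_nonneg hF0.le (hl.1 S), ?_⟩, hload⟩
      obtain ⟨u, v, h, hc⟩ := exists_cross hG S
      refine le_trans ?_ (hload u v h)
      exact Finset.single_le_sum (f := fun S => F * l S) (fun S _ => mul_nonneg hF0.le (hl.1 S))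
        (Finset.mem_filter.2 ⟨Finset.mem_univ _, hc⟩)
    have := le_fc hp
    rw [← Finset.mul_sum, hl.2, mul_one] at this
    linarith
  obtain ⟨φ, u, h1, h2⟩ := geometric_hahn_banach_open hUc hUo hKc hdis
  set c : Arc G → ℝ := fun d => φ (Pi.single d 1) with hc
  have hφ : ∀ y, φ y = ∑ d, y d * c d := by
    intro y
    conv_lhs => rw [pi_eq_sum_univ' y]
    simp [hc, map_sum]
  have hu : 0 < u := by
    have := h1 0 fun _ _ => by simpa using hF0
    simpa using this
  have hc0 : ∀ d, 0 ≤ c d := by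
    intro d
    by_contra hneg
    push Not at hneg
    have := h1 ((u / c d) • Pi.single d 1) fun e _ => by
      have h3 : u / c d < 0 := div_neg_of_pos_of_neg hu hneg
      have h4 : (0 : ℝ) < F⁻¹ := inv_pos.2 hF0
      by_cases he : e = d
      · subst he; simp only [Pi.smul_apply, Pi.single_eq_same, smul_eq_mul, mul_one, Set.mem_Iio]
        linarith
      · simpa [he] using hF0
    rw [map_smul, smul_eq_mul] at this
    change u / c d * c d < u at this
    rw [div_mul_cancel₀ _ hneg.ne] at this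
    exact lt_irrefl _ this
  have hsum : ∑ d, c d ≤ F * u := by
    by_contra hcon
    push Not at hcon
    have hs : 0 < ∑ d, c d := (mul_pos hF0 hu).trans hcon
    have := h1 (fun _ => u / ∑ d, c d) fun e _ => by
      rw [Set.mem_Iio, div_lt_iff₀ hs, inv_mul_eq_div, lt_div_iff₀ hF0]
      linarith
    rw [hφ, ← Finset.mul_sum, div_mul_cancel₀ _ hs.ne'] at this
    exact lt_irrefl _ this
  refine ⟨fun d => c d / u, fun d => div_nonneg (hc0 d) hu.le, ?_, fun S => ?_⟩
  · rw [← Finset.sum_div, div_le_iff₀ hu]; exact hsum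
  · have := h2 (A (Pi.single S 1)) ⟨_, single_mem_stdSimplex ℝ S, rfl⟩
    rw [hφ] at this
    have h3 : ∑ d : Arc G, (if ¬ (d.1.1 ∈ S.1 ↔ d.1.2 ∈ S.1) then c d / u else 0)
        = (∑ d, A (Pi.single S 1) d * c d) / u := by
      rw [Finset.sum_div]
      refine Finset.sum_congr rfl fun d _ => ?_
      rw [hA, Fintype.linearCombination_apply_single]
      by_cases h4 : (d.1.1 ∈ S.1 ↔ d.1.2 ∈ S.1) <;> simp [hχ, h4]
    rw [h3, le_div_iff₀ hu, one_mul]
    exact this

/-- integral version: a multigraph on the arcs that is `m`-edge-connected -/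
theorem lp_int {G : SimpleGraph V} [DecidableRel G.Adj] (hG : G.Connected) {F : ℝ}
    (hF : fc G < F) (m : ℕ) :
    ∃ p : Arc G → ℕ, (∑ d, p d : ℕ) ≤ m * F + Fintype.card (Arc G) ∧
      ∀ S : Cut V, m ≤ ∑ d : Arc G, if ¬ (d.1.1 ∈ S.1 ↔ d.1.2 ∈ S.1) then p d else 0 := by
  obtain ⟨w, w0, w1, w2⟩ := lp_dual hG hF
  refine ⟨fun d => ⌈m * w d⌉₊, ?_, fun S => ?_⟩
  · push_cast
    calc ∑ d, (⌈m * w d⌉₊ : ℝ) ≤ ∑ d, (m * w d + 1) :=
          Finset.sum_le_sum fun d _ => (Nat.ceil_lt_add_one (by have := w0 d; positivity)).le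
      _ = m * ∑ d, w d + Fintype.card (Arc G) := by
          rw [Finset.sum_add_distrib, Finset.mul_sum]; simp
      _ ≤ _ := by gcongr
  · have : (m : ℝ) ≤ ∑ d : Arc G, if ¬ (d.1.1 ∈ S.1 ↔ d.1.2 ∈ S.1) then (⌈m * w d⌉₊ : ℝ) else 0 := by
      calc (m : ℝ) = m * 1 := (mul_one _).symm
        _ ≤ m * ∑ d : Arc G, if ¬ (d.1.1 ∈ S.1 ↔ d.1.2 ∈ S.1) then w d else 0 := by
            gcongr; exact w2 S
        _ ≤ _ := by
            rw [Finset.mul_sum]
            refine Finset.sum_le_sum fun d _ => ?_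
            split_ifs
            · simp
            · exact Nat.le_ceil _
    exact_mod_cast this

end Pool.Agent.MP_bf2f06_lc

end

-- part MP_bf2f06_lc.Lin
section

namespace Pool.Agent.MP_bf2f06_lc

open Finset Matrix

section generic

variable {U W : Type} [AddCommGroup U] [Module ℚ U] [AddCommGroup W] [Module ℚ W]
  [FiniteDimensional ℚ U]

theorem finite_bad_left (A B : U →ₗ[ℚ] W) (hA : Function.Injective A) :
    {s : ℚ | ∃ u, u ≠ 0 ∧ s • A u + B u = 0}.Finite := by
  obtain ⟨C, hC⟩ := A.exists_leftInverse_of_injective (LinearMap.ker_eq_bot.2 hA)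
  have h := Module.End.finite_hasEigenvalue (C.comp B : Module.End ℚ U)
  refine (h.image fun μ => -μ).subset ?_
  rintro s ⟨u, hu, e⟩
  refine ⟨-s, ?_, neg_neg s⟩
  refine Module.End.hasEigenvalue_of_hasEigenvector (x := u) ⟨?_, hu⟩
  rw [Module.End.mem_eigenspace_iff]
  have h1 : C (A u) = u := LinearMap.congr_fun hC u
  have h2 := congrArg C e
  rw [map_add, map_smul, h1, map_zero] at h2
  rw [LinearMap.comp_apply, neg_smul]
  exact eq_neg_of_add_eq_zero_right h2

theorem finite_bad_right (A B : U →ₗ[ℚ] W) (hB : Function.Injective B) :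
    {s : ℚ | ∃ u, u ≠ 0 ∧ s • A u + B u = 0}.Finite := by
  have h := finite_bad_left B A hB
  refine (h.image fun μ => μ⁻¹).subset ?_
  rintro s ⟨u, hu, e⟩
  have hs : s ≠ 0 := by
    rintro rfl
    rw [zero_smul, zero_add] at e
    exact hu (hB (e.trans (map_zero B).symm))
  refine ⟨s⁻¹, ⟨u, hu, ?_⟩, inv_inv s⟩
  have := congrArg (fun w => s⁻¹ • w) e
  simp only [smul_add, smul_smul, inv_mul_cancel₀ hs, one_smul, smul_zero] at this
  rw [add_comm]; exact this

end generic

variable {V E : Type} [Fintype V] [DecidableEq V] [Fintype E] [DecidableEq E]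

/-- vectors that vanish on `Y` and are harmonic off `X` vanish -/
def Rigid (L : Matrix E E ℚ) (X : Finset E) (Y : E → Prop) : Prop :=
  ∀ a : E → ℚ, (∀ e, Y e → a e = 0) → (∀ e, e ∉ X → (L *ᵥ a) e = 0) → a = 0

omit [DecidableEq E] in
theorem finite_not_rigid (L S : Matrix E E ℚ) (X : Finset E) (Y : E → Prop)
    (h : Rigid L X Y ∨ Rigid S X Y) : {s : ℚ | ¬ Rigid (s • L + S) X Y}.Finite := by
  let U : Submodule ℚ (E → ℚ) :=
    { carrier := {a | ∀ e, Y e → a e = 0}
      add_mem' := fun {a b} ha hb e he => by simp [ha e he, hb e he]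
      zero_mem' := fun _ _ => rfl
      smul_mem' := fun c a ha e he => by simp [ha e he] }
  let Φ : Matrix E E ℚ → U →ₗ[ℚ] ({e // e ∉ X} → ℚ) := fun M =>
    (LinearMap.funLeft ℚ ℚ Subtype.val).comp (M.mulVecLin.comp U.subtype)
  have hΦ : ∀ M, Rigid M X Y → Function.Injective (Φ M) := by
    intro M hM
    rw [injective_iff_map_eq_zero]
    intro a ha
    exact Subtype.ext (hM a.1 a.2 fun e he => congrFun ha ⟨e, he⟩)
  have hsub : {s : ℚ | ¬ Rigid (s • L + S) X Y} ⊆
      {s : ℚ | ∃ u, u ≠ 0 ∧ s • Φ L u + Φ S u = 0} := by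
    intro s hs
    simp only [Rigid, Set.mem_ofPred_eq, not_forall] at hs
    obtain ⟨a, h1, h2, h3⟩ := hs
    refine ⟨⟨a, h1⟩, fun e => h3 (congrArg Subtype.val e), funext fun e => ?_⟩
    have := h2 e.1 e.2
    rw [Matrix.add_mulVec, Matrix.smul_mulVec] at this
    exact this
  rcases h with h | h
  · exact (finite_bad_left _ _ (hΦ L h)).subset hsub
  · exact (finite_bad_right _ _ (hΦ S h)).subset hsub

/-- quantitative positive definiteness -/
def PD (L : Matrix E E ℚ) : Prop := ∃ c : ℚ, 0 < c ∧ ∀ a : E → ℚ, c * (a ⬝ᵥ a) ≤ a ⬝ᵥ L *ᵥ a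

omit [DecidableEq E] in
theorem form_bound (S : Matrix E E ℚ) :
    ∃ B : ℚ, ∀ a : E → ℚ, -(B * (a ⬝ᵥ a)) ≤ a ⬝ᵥ S *ᵥ a := by
  refine ⟨∑ e, ∑ f, |S e f|, fun a => ?_⟩
  have hsq : ∀ e, a e * a e ≤ a ⬝ᵥ a := fun e =>
    Finset.single_le_sum (f := fun e => a e * a e) (fun e _ => mul_self_nonneg _)
      (Finset.mem_univ e)
  have h1 : ∀ e f, -(|S e f| * (a ⬝ᵥ a)) ≤ a e * (S e f * a f) := by
    intro e f
    have h2 : |a e * a f| ≤ a ⬝ᵥ a := by
      rw [abs_le]
      constructor <;> nlinarith [hsq e, hsq f, mul_self_nonneg (a e + a f),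
        mul_self_nonneg (a e - a f)]
    have h3 : |S e f * (a e * a f)| ≤ |S e f| * (a ⬝ᵥ a) := by
      rw [abs_mul]; gcongr
    have := (abs_le.1 h3).1
    linarith
  simp only [Finset.sum_mul, ← Finset.sum_neg_distrib]
  change _ ≤ ∑ e, a e * ∑ f, S e f * a f
  refine Finset.sum_le_sum fun e _ => ?_
  rw [Finset.mul_sum]
  exact Finset.sum_le_sum fun f _ => h1 e f

omit [DecidableEq E] in
theorem pd_add {L : Matrix E E ℚ} (hL : PD L) (S : Matrix E E ℚ) :
    ∃ s0 : ℚ, ∀ s, s0 < s → PD (s • L + S) := by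
  obtain ⟨c, hc, h⟩ := hL
  obtain ⟨B, hB⟩ := form_bound S
  refine ⟨|B| / c, fun s hs => ⟨s * c - |B|, ?_, fun a => ?_⟩⟩
  · rw [div_lt_iff₀ hc] at hs; linarith
  · have hs0 : 0 ≤ s := le_trans (by positivity) hs.le
    have h0 : 0 ≤ a ⬝ᵥ a := Finset.sum_nonneg fun e _ => mul_self_nonneg _
    rw [Matrix.add_mulVec, Matrix.smul_mulVec, dotProduct_add, dotProduct_smul, smul_eq_mul]
    have h1 := mul_le_mul_of_nonneg_left (h a) hs0
    have h2 := hB a
    have h3 := mul_le_mul_of_nonneg_right (le_abs_self B) h0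
    nlinarith

/-- `e` is incident with `v` -/
def Inc (s t : E → V) (e : E) (v : V) : Prop := s e = v ∨ t e = v

/-- two edges share an end -/
def Touch (s t : E → V) (e f : E) : Prop := ∃ v, Inc s t e v ∧ Inc s t f v

/-- symmetric and supported on touching pairs -/
def Supp (s t : E → V) (L : Matrix E E ℚ) : Prop :=
  ∀ e f, L e f = L f e ∧ (L e f ≠ 0 → Touch s t e f)

/-- every cut has at least `m` edges -/
def Conn (s t : E → V) (m : ℕ) : Prop :=
  ∀ S : Finset V, S.Nonempty → S ≠ Finset.univ →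
    m ≤ (Finset.univ.filter fun e => ¬ (s e ∈ S ↔ t e ∈ S)).card

theorem exists_matching {s t : E → V} {m : ℕ} (h : Conn s t m) (X : Finset E) (hX : X.card ≤ m)
    (v : V) : ∃ σ : {e // ¬ Inc s t e v} → E, Function.Injective σ ∧
      ∀ e, σ e ∉ X ∧ Touch s t e.1 (σ e) := by
  classical
  have := (Finset.all_card_le_biUnion_card_iff_exists_injective
    (fun e : {e // ¬ Inc s t e v} => Finset.univ.filter fun f => f ∉ X ∧ Touch s t e.1 f)).1 ?_
  · obtain ⟨σ, h1, h2⟩ := this
    exact ⟨σ, h1, fun e => (Finset.mem_filter.1 (h2 e)).2⟩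
  intro A
  rcases A.eq_empty_or_nonempty with rfl | ⟨e0, he0⟩
  · simp
  set W : Finset V := Finset.univ.filter fun w => ∃ e ∈ A, Inc s t e.1 w with hW
  have hWm : ∀ w, w ∈ W ↔ ∃ e ∈ A, Inc s t e.1 w := by simp [hW]
  have h1 := h W ⟨s e0.1, (hWm _).2 ⟨e0, he0, Or.inl rfl⟩⟩ (by
    intro hu
    obtain ⟨e, _, he⟩ := (hWm v).1 (hu ▸ Finset.mem_univ v)
    exact e.2 he)
  set C := Finset.univ.filter fun e => ¬ (s e ∈ W ↔ t e ∈ W) with hC
  have hdis : Disjoint (A.map (Function.Embedding.subtype _)) C := by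
    rw [Finset.disjoint_left]
    intro e h2 h3
    obtain ⟨e', he', rfl⟩ := Finset.mem_map.1 h2
    refine (Finset.mem_filter.1 h3).2 ?_
    exact iff_of_true ((hWm _).2 ⟨e', he', Or.inl rfl⟩) ((hWm _).2 ⟨e', he', Or.inr rfl⟩)
  have hsub : (A.map (Function.Embedding.subtype _) ∪ C) \ X ⊆
      A.biUnion fun e => Finset.univ.filter fun f => f ∉ X ∧ Touch s t e.1 f := by
    intro f hf
    rw [Finset.mem_sdiff, Finset.mem_union] at hf
    rw [Finset.mem_biUnion]
    rcases hf.1 with h2 | h2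
    · obtain ⟨e', he', rfl⟩ := Finset.mem_map.1 h2
      exact ⟨e', he', Finset.mem_filter.2 ⟨Finset.mem_univ _, hf.2, _, Or.inl rfl, Or.inl rfl⟩⟩
    · have h3 := (Finset.mem_filter.1 h2).2
      by_cases h4 : s f ∈ W
      · obtain ⟨e, he, h5⟩ := (hWm _).1 h4
        exact ⟨e, he, Finset.mem_filter.2 ⟨Finset.mem_univ _, hf.2, _, h5, Or.inl rfl⟩⟩
      · obtain ⟨e, he, h5⟩ := (hWm (t f)).1 (by tauto)
        exact ⟨e, he, Finset.mem_filter.2 ⟨Finset.mem_univ _, hf.2, _, h5, Or.inr rfl⟩⟩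
  have h5 := Finset.card_le_card hsub
  have h6 := Finset.le_card_sdiff X (A.map (Function.Embedding.subtype _) ∪ C)
  rw [Finset.card_union_of_disjoint hdis, Finset.card_map] at h6
  omega

theorem exists_rigid {s t : E → V} {m : ℕ} (h : Conn s t m) (X : Finset E) (hX : X.card ≤ m)
    (v : V) : ∃ S : Matrix E E ℚ, Supp s t S ∧ Rigid S X fun e => Inc s t e v := by
  classical
  obtain ⟨σ, hσ, hσ'⟩ := exists_matching h X hX v
  set g : E → E := fun e => if he : Inc s t e v then e else σ ⟨e, he⟩ with hg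
  have gY : ∀ e, Inc s t e v → g e = e := fun e he => by simp [hg, he]
  have gN : ∀ e (he : ¬ Inc s t e v), g e = σ ⟨e, he⟩ := fun e he => by simp [hg, he]
  have ginj : ∀ e e', ¬ Inc s t e v → ¬ Inc s t e' v → g e = g e' → e = e' := by
    intro e e' he he' h1
    rw [gN e he, gN e' he'] at h1
    exact congrArg Subtype.val (hσ h1)
  set T : E → Prop := fun e => ∃ k, Inc s t (g^[k] e) v with hT
  have TY : ∀ e, Inc s t e v → T e := fun e he => ⟨0, he⟩
  have step : ∀ k e, Inc s t (g^[k] e) v → Inc s t (g^[k] (g e)) v := by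
    intro k e he
    rw [← Function.iterate_succ_apply, Function.iterate_succ_apply', gY _ he]
    exact he
  have Tg : ∀ e, T (g e) ↔ T e := fun e =>
    ⟨fun ⟨k, hk⟩ => ⟨k + 1, hk⟩, fun ⟨k, hk⟩ => ⟨k, step k e hk⟩⟩
  have hTX : ∀ e, ¬ T e → e ∉ X := by
    intro e he
    have hsurj : Function.Surjective
        (fun x : {e // ¬ T e} => (⟨g x.1, fun h => x.2 ((Tg _).1 h)⟩ : {e // ¬ T e})) := by
      refine Finite.surjective_of_injective fun x y hxy => Subtype.ext ?_
      exact ginj _ _ (fun h => x.2 (TY _ h)) (fun h => y.2 (TY _ h)) (congrArg Subtype.val hxy)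
    obtain ⟨x, hx⟩ := hsurj ⟨e, he⟩
    have h1 : g x.1 = e := congrArg Subtype.val hx
    rw [← h1, gN _ fun h => x.2 (TY _ h)]
    exact (hσ' _).1
  set P : E → E → Prop := fun e f => T e ∧ ¬ Inc s t e v ∧ g e = f with hP
  have hPT : ∀ e f, P e f → Touch s t e f := by
    rintro e f ⟨_, h2, rfl⟩
    rw [gN e h2]; exact (hσ' ⟨e, h2⟩).2
  refine ⟨Matrix.of fun e f => (if ¬ T e ∧ e = f then 1 else 0) + (if P e f then 1 else 0)
    + (if P f e then 1 else 0), fun e f => ⟨?_, fun hne => ?_⟩, fun a ha hb => ?_⟩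
  · simp only [Matrix.of_apply]
    have : (¬ T e ∧ e = f) ↔ (¬ T f ∧ f = e) := by
      constructor <;> rintro ⟨h1, rfl⟩ <;> exact ⟨h1, rfl⟩
    simp only [this]
    ring
  · by_contra hc
    apply hne
    simp only [Matrix.of_apply]
    rw [if_neg, if_neg, if_neg]
    · simp
    · intro h1
      obtain ⟨w, h2, h3⟩ := hPT _ _ h1
      exact hc ⟨w, h3, h2⟩
    · exact fun h1 => hc (hPT _ _ h1)
    · rintro ⟨_, rfl⟩
      exact hc ⟨s e, Or.inl rfl, Or.inl rfl⟩
  · have row : ∀ e, e ∉ X → (if ¬ T e then a e else 0)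
        + (if T e ∧ ¬ Inc s t e v then a (g e) else 0)
        + ∑ f, (if P f e then a f else 0) = 0 := by
      intro e he
      have := hb e he
      simp only [Matrix.mulVec, dotProduct, Matrix.of_apply, add_mul, Finset.sum_add_distrib,
        ite_mul, one_mul, zero_mul] at this
      have e1 : (∑ x, if ¬ T e ∧ e = x then a x else 0) = if ¬ T e then a e else 0 := by
        by_cases h1 : T e <;> simp [h1]
      have e2 : (∑ x, if P e x then a x else 0)
          = if T e ∧ ¬ Inc s t e v then a (g e) else 0 := by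
        by_cases h1 : T e ∧ ¬ Inc s t e v
        · simp [hP, h1]
        · rw [if_neg h1]
          exact Finset.sum_eq_zero fun f _ => if_neg fun h2 : P e f => h1 ⟨h2.1, h2.2.1⟩
      rw [e1, e2] at this
      exact this
    have key : ∀ k e, Inc s t (g^[k] e) v → a e = 0 := by
      intro k
      induction k with
      | zero => exact ha
      | succ k ih =>
        intro e he
        by_cases h1 : Inc s t e v
        · exact ha e h1
        have hTe : T e := ⟨k + 1, he⟩
        have h2 := row (g e) (by rw [gN e h1]; exact (hσ' _).1)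
        have h3 : a (g (g e)) = 0 := ih _ (step k _ he)
        rw [if_neg (not_not.2 ((Tg e).2 hTe)), h3, ite_self, zero_add, zero_add,
          Finset.sum_eq_single e, if_pos ⟨hTe, h1, rfl⟩] at h2
        · exact h2
        · intro f _ hf
          exact if_neg fun h4 => hf (ginj _ _ h4.2.1 h1 h4.2.2)
        · simp
    funext e
    by_cases h1 : T e
    · obtain ⟨k, hk⟩ := h1
      exact key k e hk
    · have h2 := row e (hTX e h1)
      rw [if_pos h1, if_neg fun h => h1 h.1, add_zero, Finset.sum_eq_zero, add_zero] at h2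
      · exact h2
      · intro f _
        refine if_neg ?_
        rintro ⟨h3, _, rfl⟩
        exact h1 ((Tg f).2 h3)

theorem exists_good {s t : E → V} {m : ℕ} (h : Conn s t m) (X : Finset E) (hX : X.card ≤ m) :
    ∃ L : Matrix E E ℚ, Supp s t L ∧ PD L ∧ ∀ v, Rigid L X fun e => Inc s t e v := by
  suffices H : ∀ A : Finset V,
      ∃ L : Matrix E E ℚ, Supp s t L ∧ PD L ∧ ∀ v ∈ A, Rigid L X fun e => Inc s t e v by
    obtain ⟨L, h1, h2, h3⟩ := H Finset.univ
    exact ⟨L, h1, h2, fun v => h3 v (Finset.mem_univ v)⟩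
  intro A
  induction A using Finset.induction_on with
  | empty =>
    refine ⟨1, fun e f => ⟨?_, fun hne => ?_⟩, ⟨1, one_pos, fun a => by simp⟩, by simp⟩
    · simp [Matrix.one_apply, eq_comm]
    · have : e = f := by
        by_contra hc
        exact hne (Matrix.one_apply_ne hc)
      subst this
      exact ⟨s e, Or.inl rfl, Or.inl rfl⟩
  | insert w A _ ih =>
    obtain ⟨L, h1, h2, h3⟩ := ih
    obtain ⟨S, h4, h5⟩ := exists_rigid h X hX w
    obtain ⟨s0, hs0⟩ := pd_add h2 S
    have hfin : (⋃ v ∈ insert w A, {r : ℚ | ¬ Rigid (r • L + S) X fun e => Inc s t e v}).Finite := by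
      refine Set.Finite.biUnion (Finset.finite_toSet _) fun v hv => ?_
      rcases Finset.mem_insert.1 hv with rfl | hv
      · exact finite_not_rigid L S X _ (Or.inr h5)
      · exact finite_not_rigid L S X _ (Or.inl (h3 v hv))
    obtain ⟨r, hr1, hr2⟩ := ((Set.Ioi_infinite s0).sdiff hfin).nonempty
    refine ⟨r • L + S, fun e f => ⟨?_, fun hne => ?_⟩, hs0 r hr1, fun v hv => ?_⟩
    · simp [(h1 e f).1, (h4 e f).1]
    · by_contra hc
      apply hne
      have e1 : L e f = 0 := by by_contra h6; exact hc ((h1 e f).2 h6)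
      have e2 : S e f = 0 := by by_contra h6; exact hc ((h4 e f).2 h6)
      simp [e1, e2]
    · by_contra hc
      exact hr2 (Set.mem_biUnion hv hc)

end Pool.Agent.MP_bf2f06_lc

end

-- part MP_bf2f06_lc.Scheme
section

namespace Pool.Agent.MP_bf2f06_lc

open Finset Matrix

variable {V E : Type} [Fintype V] [DecidableEq V] [Fintype E] [DecidableEq E]

omit [DecidableEq E] in
theorem PD.eq_zero {L : Matrix E E ℚ} (h : PD L) {a : E → ℚ} (ha : a ⬝ᵥ L *ᵥ a ≤ 0) : a = 0 := by
  obtain ⟨c, hc, h⟩ := h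
  have h0 : 0 ≤ a ⬝ᵥ a := Finset.sum_nonneg fun e _ => mul_self_nonneg _
  have h1 : a ⬝ᵥ a = 0 := by nlinarith [h a]
  exact dotProduct_self_eq_zero.1 h1

omit [DecidableEq E] in
theorem PD.nonneg {L : Matrix E E ℚ} (h : PD L) (a : E → ℚ) : 0 ≤ a ⬝ᵥ L *ᵥ a := by
  obtain ⟨c, hc, h⟩ := h
  have h0 : 0 ≤ a ⬝ᵥ a := Finset.sum_nonneg fun e _ => mul_self_nonneg _
  nlinarith [h a]

theorem exists_ell {L : Matrix E E ℚ} (hL : PD L) {m : ℕ} (ι : Fin m → E)
    (hι : Function.Injective ι) :
    ∃ ℓ : E → Fin m → ℤ, ∀ y : Fin m → ℚ,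
      (∀ e, (∀ i, ι i ≠ e) → (L *ᵥ fun e => ∑ i, (ℓ e i : ℚ) * y i) e = 0) ∧
      ((fun e => ∑ i, (ℓ e i : ℚ) * y i) = 0 → y = 0) := by
  have hinj : Function.Injective L.mulVecLin := by
    rw [injective_iff_map_eq_zero]
    intro a ha
    refine hL.eq_zero ?_
    rw [Matrix.mulVecLin_apply] at ha
    rw [ha]; simp
  have hsurj : Function.Surjective L.mulVecLin := LinearMap.injective_iff_surjective.1 hinj
  choose h hh using fun i : Fin m => hsurj (Pi.single (ι i) 1)
  obtain ⟨N, hN⟩ := IsLocalization.exist_integer_multiples_of_finite (nonZeroDivisors ℤ)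
    (fun p : E × Fin m => h p.2 p.1)
  have hN0 : ((N : ℤ) : ℚ) ≠ 0 := by exact_mod_cast nonZeroDivisors.coe_ne_zero N
  choose ℓ hℓ using hN
  refine ⟨fun e i => ℓ (e, i), fun y => ?_⟩
  have e1 : (fun e => ∑ i, (ℓ (e, i) : ℚ) * y i) = ∑ i, (((N : ℤ) : ℚ) * y i) • h i := by
    funext e
    rw [Finset.sum_apply]
    refine Finset.sum_congr rfl fun i _ => ?_
    have := hℓ (e, i)
    simp only [eq_intCast, zsmul_eq_mul] at this
    rw [this, Pi.smul_apply, smul_eq_mul]; ring
  have e2 : ∀ e, (L *ᵥ fun e => ∑ i, (ℓ (e, i) : ℚ) * y i) e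
      = ∑ i, (((N : ℤ) : ℚ) * y i) * (Pi.single (ι i) (1 : ℚ) : E → ℚ) e := by
    intro e
    rw [e1, ← Matrix.mulVecLin_apply, map_sum, Finset.sum_apply]
    refine Finset.sum_congr rfl fun i _ => ?_
    rw [map_smul, hh i, Pi.smul_apply, smul_eq_mul]
  refine ⟨fun e he => ?_, fun h0 => funext fun i => ?_⟩
  · rw [e2]
    exact Finset.sum_eq_zero fun i _ => by rw [Pi.single_eq_of_ne (he i).symm, mul_zero]
  · have := e2 (ι i)
    rw [h0, Matrix.mulVec_zero, Finset.sum_eq_single i] at this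
    · simpa [hN0] using this
    · intro j _ hj
      rw [Pi.single_eq_of_ne fun h => hj (hι h).symm, mul_zero]
    · simp

theorem rigid_main {s t : E → V} {m : ℕ} (h : Conn s t m) (hV : 2 ≤ Fintype.card V) :
    ∃ ℓ : E → Fin m → ℤ, ∀ (D : ℕ) (z : V → Fin D → Fin m → ℤ),
      (∀ u w i i', ∑ j, z u j i * z u j i' = ∑ j, z w j i * z w j i') →
      (∀ e j, ∑ i, ℓ e i * z (s e) j i = ∑ i, ℓ e i * z (t e) j i) → ∀ u w, z u = z w := by
  have : Nontrivial V := Fintype.one_lt_card_iff_nontrivial.1 hV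
  obtain ⟨r⟩ : Nonempty V := inferInstance
  have h1 := h {r} (Finset.singleton_nonempty r) (Finset.singleton_ne_univ r)
  obtain ⟨X, hX1, hX2⟩ := Finset.exists_subset_card_eq h1
  have hXr : ∀ e ∈ X, Inc s t e r := by
    intro e he
    have := (Finset.mem_filter.1 (hX1 he)).2
    simp only [Finset.mem_singleton] at this
    unfold Inc; tauto
  obtain ⟨L, hS, hP, hR⟩ := exists_good h X hX2.le
  set ι : Fin m → E := fun i => ((X.equivFinOfCardEq hX2).symm i : E) with hι
  have ιinj : Function.Injective ι := fun i j e =>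
    (X.equivFinOfCardEq hX2).symm.injective (Subtype.ext e)
  obtain ⟨ℓ, hℓ⟩ := exists_ell hP ι ιinj
  have hK : ∀ y : Fin m → ℚ, ∀ e, e ∉ X → (L *ᵥ fun e => ∑ i, (ℓ e i : ℚ) * y i) e = 0 :=
    fun y e he => (hℓ y).1 e fun i hi => he (hi ▸ ((X.equivFinOfCardEq hX2).symm i).2)
  refine ⟨ℓ, fun D z hG hE => ?_⟩
  set lab : V → Fin D → E → ℚ := fun v j e => ∑ i, (ℓ e i : ℚ) * (z v j i : ℚ) with hlab
  set a : Fin D → E → ℚ := fun j e => lab (s e) j e with ha
  have haInc : ∀ j e v, Inc s t e v → a j e = lab v j e := by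
    rintro j e v (rfl | rfl)
    · rfl
    · simp only [ha, hlab]
      exact_mod_cast hE e j
  have hgram : ∀ v e f, ∑ j, lab v j e * lab v j f = ∑ j, lab r j e * lab r j f := by
    have : ∀ v e f, ∑ j, lab v j e * lab v j f
        = ∑ i, ∑ i', (ℓ e i : ℚ) * (ℓ f i' : ℚ) * ((∑ j, z v j i * z v j i' : ℤ) : ℚ) := by
      intro v e f
      simp only [hlab, Finset.sum_mul_sum]
      push_cast
      simp only [Finset.mul_sum]
      rw [Finset.sum_comm]
      refine Finset.sum_congr rfl fun i _ => ?_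
      rw [Finset.sum_comm]
      exact Finset.sum_congr rfl fun i' _ => Finset.sum_congr rfl fun j _ => by ring
    intro v e f
    rw [this, this]
    simp only [hG v r]
  have hexp : ∀ b : Fin D → E → ℚ,
      ∑ j, b j ⬝ᵥ L *ᵥ b j = ∑ e, ∑ f, L e f * ∑ j, b j e * b j f := by
    intro b
    simp only [dotProduct, Matrix.mulVec, Finset.mul_sum]
    rw [Finset.sum_comm]
    refine Finset.sum_congr rfl fun e _ => ?_
    rw [Finset.sum_comm]
    exact Finset.sum_congr rfl fun f _ => Finset.sum_congr rfl fun j _ => by ring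
  have henergy : ∑ j, a j ⬝ᵥ L *ᵥ a j = ∑ j, lab r j ⬝ᵥ L *ᵥ lab r j := by
    rw [hexp, hexp]
    refine Finset.sum_congr rfl fun e _ => Finset.sum_congr rfl fun f _ => ?_
    by_cases h0 : L e f = 0
    · simp [h0]
    · obtain ⟨v, h2, h3⟩ := (hS e f).2 h0
      rw [← hgram v]
      simp only [haInc _ _ _ h2, haInc _ _ _ h3]
  have hsymm : ∀ b c : E → ℚ, b ⬝ᵥ L *ᵥ c = c ⬝ᵥ L *ᵥ b := by
    intro b c
    simp only [dotProduct, Matrix.mulVec, Finset.mul_sum]
    rw [Finset.sum_comm]
    refine Finset.sum_congr rfl fun e _ => Finset.sum_congr rfl fun f _ => ?_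
    rw [(hS e f).1]; ring
  have hsplit : ∀ j, a j ⬝ᵥ L *ᵥ a j = lab r j ⬝ᵥ L *ᵥ lab r j
      + (a j - lab r j) ⬝ᵥ L *ᵥ (a j - lab r j) := by
    intro j
    have h0 : (a j - lab r j) ⬝ᵥ L *ᵥ lab r j = 0 := by
      refine Finset.sum_eq_zero fun e _ => ?_
      by_cases he : e ∈ X
      · rw [Pi.sub_apply, haInc j e r (hXr e he), sub_self, zero_mul]
      · rw [hK _ e he, mul_zero]
    rw [Matrix.mulVec_sub, dotProduct_sub, h0, sub_zero, sub_dotProduct, hsymm (lab r j) (a j)]
    rw [sub_dotProduct] at h0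
    linarith
  have hzero : ∀ j, a j = lab r j := by
    have h2 : ∑ j, (a j - lab r j) ⬝ᵥ L *ᵥ (a j - lab r j) = 0 := by
      rw [Finset.sum_congr rfl fun j _ => hsplit j, Finset.sum_add_distrib] at henergy
      linarith
    intro j
    have := (Finset.sum_eq_zero_iff_of_nonneg fun j _ => hP.nonneg _).1 h2 j (Finset.mem_univ j)
    exact sub_eq_zero.1 (hP.eq_zero this.le)
  have hall : ∀ v, z v = z r := by
    intro v
    funext j
    have h2 := hR v (fun e => ∑ i, (ℓ e i : ℚ) * ((z v j i : ℚ) - z r j i)) (fun e he => by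
      have h3 := haInc j e v he
      rw [hzero j] at h3
      simp only [mul_sub, Finset.sum_sub_distrib]
      exact sub_eq_zero.2 h3.symm) (hK _)
    funext i
    have := congrFun ((hℓ _).2 h2) i
    exact_mod_cast sub_eq_zero.1 this
  intro u w
  rw [hall u, hall w]

/-- a large set of integer points with a common Gram matrix -/
theorem exists_code (m D μ n : ℕ) (h : n + m * m * (2 * μ + D) ≤ μ * (D * m)) :
    ∃ c : (Fin n → Bool) → Fin D → Fin m → ℤ, Function.Injective c ∧
      (∀ x j i, |c x j i| ≤ 2 ^ μ) ∧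
      ∀ x y i i', ∑ j, c x j i * c x j i' = ∑ j, c y j i * c y j i' := by
  classical
  set Γ : (Fin D → Fin m → Fin (2 ^ μ)) → (Fin m → Fin m → ℕ) :=
    fun z i i' => ∑ j, (z j i : ℕ) * (z j i' : ℕ) with hΓ
  set T : Finset (Fin m → Fin m → ℕ) :=
    Fintype.piFinset fun _ => Fintype.piFinset fun _ => range (2 ^ (2 * μ + D)) with hT
  have hmaps : ∀ z ∈ (Finset.univ : Finset (Fin D → Fin m → Fin (2 ^ μ))), Γ z ∈ T := by
    intro z _
    simp only [hT, Fintype.mem_piFinset, Finset.mem_range, hΓ]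
    intro i i'
    calc ∑ j, (z j i : ℕ) * (z j i' : ℕ) ≤ ∑ _j : Fin D, 2 ^ μ * 2 ^ μ :=
          Finset.sum_le_sum fun j _ => Nat.mul_le_mul (z j i).2.le (z j i').2.le
      _ = 2 ^ (2 * μ) * D := by simp; ring
      _ < 2 ^ (2 * μ) * 2 ^ D := by gcongr; exact Nat.lt_two_pow_self
      _ = _ := by rw [pow_add]
  have hTne : T.Nonempty := ⟨_, hmaps (fun _ _ => ⟨0, by positivity⟩) (Finset.mem_univ _)⟩
  obtain ⟨γ, _, hγ⟩ := Finset.exists_le_card_fiber_of_mul_le_card_of_maps_to (n := 2 ^ n) hmaps hTne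
    (by
      simp only [hT, Fintype.card_piFinset, Finset.card_range, Finset.prod_const, Finset.card_univ,
        Fintype.card_fin, Fintype.card_fun, ← pow_mul, ← pow_add]
      refine Nat.pow_le_pow_right (by norm_num) ?_
      nlinarith)
  obtain ⟨ψ⟩ := Function.Embedding.nonempty_of_card_le
    (α := Fin n → Bool) (β := (Finset.univ.filter fun z => Γ z = γ : Finset _))
    (by rw [Fintype.card_coe]; simpa using hγ)
  refine ⟨fun x j i => ((ψ x).1 j i : ℕ), fun x y e => ?_, fun x j i => ?_, fun x y i i' => ?_⟩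
  · refine ψ.injective (Subtype.ext (funext fun j => funext fun i => Fin.ext ?_))
    have := congrFun (congrFun e j) i
    simp only at this
    exact_mod_cast this
  · rw [abs_of_nonneg (Int.natCast_nonneg _)]
    exact_mod_cast ((ψ x).1 j i).2.le
  · have hx := congrFun (congrFun (Finset.mem_filter.1 (ψ x).2).2 i) i'
    have hy := congrFun (congrFun (Finset.mem_filter.1 (ψ y).2).2 i) i'
    simp only [hΓ] at hx hy
    simp only
    exact_mod_cast hx.trans hy.symm

theorem exists_enc {α B : Type} (φ : α → B) (T : Finset B) (k : ℕ) (h1 : ∀ a, φ a ∈ T)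
    (h2 : T.card ≤ 2 ^ k) :
    ∃ enc : α → List Bool, (∀ a, (enc a).length = k) ∧ ∀ a b, enc a = enc b → φ a = φ b := by
  obtain ⟨ψ⟩ := Function.Embedding.nonempty_of_card_le (α := T) (β := Fin k → Bool)
    (by simpa using h2)
  refine ⟨fun a => List.ofFn (ψ ⟨φ a, h1 a⟩), fun a => by simp, fun a b e => ?_⟩
  exact congrArg Subtype.val (ψ.injective (List.ofFn_injective e))

/-- the one-round labelling scheme -/
theorem exists_scheme {s t : E → V} {m : ℕ} (h : Conn s t m) (hV : 2 ≤ Fintype.card V)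
    (hm : 2 ≤ m) : ∃ K : ℕ, ∀ n : ℕ, ∃ β : ℕ, (m - 1) * β ≤ n + K ∧
      ∃ A : V → V → (Fin n → Bool) → List Bool,
        (∀ u w x, (A u w x).length = (Finset.univ.filter fun e => s e = u ∧ t e = w).card * β) ∧
        ∀ x : V → Fin n → Bool, (∀ u w, A u w (x u) = A u w (x w)) → ∀ u w, x u = x w := by
  classical
  obtain ⟨ℓ, hℓ⟩ := rigid_main h hV
  obtain ⟨k, hmk⟩ : ∃ k, m = k + 1 := ⟨m - 1, by omega⟩
  obtain ⟨C, hC⟩ : ∃ C : ℕ, C = ∑ e, ∑ i, (ℓ e i).natAbs := ⟨_, rfl⟩
  obtain ⟨D, hD⟩ : ∃ D : ℕ, D = 2 * (m * m) := ⟨_, rfl⟩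
  refine ⟨m * m * D + k * D + k * (2 * C + 1) * D, fun n => ?_⟩
  have hkD : 0 < k * D := by
    have : 0 < k := by omega
    have : 0 < m := by omega
    rw [hD]
    positivity
  obtain ⟨μ, hμ1, hμ2⟩ : ∃ μ, n + m * m * D ≤ μ * (k * D) ∧ μ * (k * D) ≤ n + m * m * D + k * D := by
    have h1 := Nat.lt_div_mul_add (a := n + m * m * D) hkD
    have h2 := Nat.div_mul_le_self (n + m * m * D) (k * D)
    refine ⟨(n + m * m * D) / (k * D) + 1, ?_, ?_⟩ <;> rw [add_mul, one_mul] <;> omega
  obtain ⟨c, c1, c2, c3⟩ := exists_code m D μ n (by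
    have e : μ * (D * m) = μ * (k * D) + m * m * (2 * μ) := by rw [hD, hmk]; ring
    rw [e, mul_add]; omega)
  refine ⟨(μ + (2 * C + 1)) * D, ?_, ?_⟩
  · rw [show m - 1 = k by omega]
    nlinarith
  have henc : ∀ u w : V, ∃ enc : (Fin n → Bool) → List Bool,
      (∀ a, (enc a).length = (Finset.univ.filter fun e => s e = u ∧ t e = w).card
        * ((μ + (2 * C + 1)) * D)) ∧
      ∀ a b, enc a = enc b →
        (fun (e : {e // s e = u ∧ t e = w}) (j : Fin D) => ∑ i, ℓ e.1 i * c a j i)
        = fun (e : {e // s e = u ∧ t e = w}) (j : Fin D) => ∑ i, ℓ e.1 i * c b j i := by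
    intro u w
    refine exists_enc _ (Fintype.piFinset fun _ => Fintype.piFinset fun _ =>
      Finset.Icc (-((C * 2 ^ μ : ℕ) : ℤ)) ((C * 2 ^ μ : ℕ) : ℤ)) _ (fun a => ?_) ?_
    · simp only [Fintype.mem_piFinset, Finset.mem_Icc, ← abs_le]
      intro e j
      calc |∑ i, ℓ e.1 i * c a j i| ≤ ∑ i, |ℓ e.1 i * c a j i| := Finset.abs_sum_le_sum_abs _ _
        _ ≤ ∑ i, |ℓ e.1 i| * 2 ^ μ := Finset.sum_le_sum fun i _ => by
            rw [abs_mul]; gcongr; exact c2 a j i
        _ = ((∑ i, (ℓ e.1 i).natAbs : ℕ) : ℤ) * 2 ^ μ := by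
            rw [← Finset.sum_mul]; push_cast; rfl
        _ ≤ (C : ℤ) * 2 ^ μ := by
            gcongr
            rw [hC]
            exact Finset.single_le_sum (f := fun e => ∑ i, (ℓ e i).natAbs)
              (fun _ _ => Nat.zero_le _) (Finset.mem_univ e.1)
        _ = _ := by push_cast; rfl
    · simp only [Fintype.card_piFinset, Finset.prod_const, Finset.card_univ, Fintype.card_fin,
        Int.card_Icc, Fintype.card_subtype]
      have h3 : (((C * 2 ^ μ : ℕ) : ℤ) + 1 - -((C * 2 ^ μ : ℕ) : ℤ)).toNat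
          ≤ 2 ^ (μ + (2 * C + 1)) := by
        have h4 : 2 * C + 1 < 2 ^ (2 * C + 1) := Nat.lt_two_pow_self
        have h5 : 0 < 2 ^ μ := by positivity
        have h6 : (((C * 2 ^ μ : ℕ) : ℤ) + 1 - -((C * 2 ^ μ : ℕ) : ℤ)).toNat
          = 2 * (C * 2 ^ μ) + 1 := by omega
        rw [h6, pow_add]
        nlinarith
      rw [mul_comm (Finset.card _), pow_mul, pow_mul]
      gcongr
  choose A hA1 hA2 using henc
  refine ⟨A, hA1, fun x hx u w => c1 ?_⟩
  refine hℓ D (fun v => c (x v)) (fun u w i i' => c3 _ _ i i') (fun e j => ?_) u w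
  exact congrFun (congrFun (hA2 _ _ _ _ (hx (s e) (t e))) ⟨e, rfl, rfl⟩) j

end Pool.Agent.MP_bf2f06_lc

end

-- part MP_bf2f06_lc.Proto
section

namespace Pool.Agent.MP_bf2f06_lc

open Finset

variable {V : Type}

section
variable (G : SimpleGraph V) (len : V → V → ℕ)

/-- the labels and the first `i` verdict bits of all neighbours have arrived -/
def Avail (v : V) (r : V → List Bool) (i : ℕ) : Prop :=
  ∀ u, G.Adj u v → len u v + i ≤ (r u).length

/-- the number of verdict bits that can be sent -/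
noncomputable def cnt (K : ℕ) (v : V) (r : V → List Bool) : ℕ :=
  sInf {i | i = K ∨ ¬ Avail G len v r i}

open Classical in
/-- the `i`-th verdict bit -/
noncomputable def sb {α : Type} (A : V → V → α → List Bool) (v : V) (x : α) (r : V → List Bool)
    (i : ℕ) : Bool :=
  decide ((∀ u, G.Adj u v → (r u).take (len u v) = A u v x) ∧
    ∀ j < i, ∀ u, G.Adj u v → (r u).getD (len u v + j) false = true)

variable {G len}

theorem cnt_le (K : ℕ) (v : V) (r : V → List Bool) : cnt G len K v r ≤ K :=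
  Nat.sInf_le (Or.inl rfl)

theorem avail_of_lt {K : ℕ} {v : V} {r : V → List Bool} {i : ℕ} (h : i < cnt G len K v r) :
    Avail G len v r i := by
  by_contra hc
  exact Nat.notMem_of_lt_sInf h (Or.inr hc)

theorem le_cnt {K : ℕ} {v : V} {r : V → List Bool} {j : ℕ} (hj : j ≤ K)
    (h : ∀ i < j, Avail G len v r i) : j ≤ cnt G len K v r := by
  by_contra hc
  push Not at hc
  have : cnt G len K v r ∈ {i | i = K ∨ ¬ Avail G len v r i} := Nat.sInf_mem ⟨K, Or.inl rfl⟩
  rcases this with h1 | h1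
  · omega
  · exact h1 (h _ hc)

theorem Avail.mono {v : V} {r r' : V → List Bool} {i : ℕ} (h : Avail G len v r i)
    (hr : ∀ u, (r u).length ≤ (r' u).length) : Avail G len v r' i :=
  fun u hu => (h u hu).trans (hr u)

theorem cnt_mono {K : ℕ} {v : V} {r r' : V → List Bool}
    (hr : ∀ u, (r u).length ≤ (r' u).length) : cnt G len K v r ≤ cnt G len K v r' :=
  le_cnt (cnt_le _ _ _) fun _ hi => (avail_of_lt hi).mono hr

theorem sb_congr {α : Type} {A : V → V → α → List Bool} {v : V} {x : α} {r r' : V → List Bool}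
    {i : ℕ} (h : Avail G len v r i) (hr : ∀ u, r u <+: r' u) :
    sb G len A v x r i = sb G len A v x r' i := by
  unfold sb
  have h1 : ∀ u, G.Adj u v → (r u).take (len u v) = (r' u).take (len u v) := by
    intro u hu
    obtain ⟨l, hl⟩ := hr u
    rw [← hl, List.take_append_of_le_length (by have := h u hu; omega)]
  have h2 : ∀ j < i, ∀ u, G.Adj u v →
      (r u).getD (len u v + j) false = (r' u).getD (len u v + j) false := by
    intro j hj u hu
    obtain ⟨l, hl⟩ := hr u
    rw [← hl, List.getD_append _ _ _ _ (by have := h u hu; omega)]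
  congr 1
  refine propext (and_congr (forall₂_congr fun u hu => by rw [h1 u hu])
    (forall₂_congr fun j hj => forall₂_congr fun u hu => by rw [h2 j hj u hu]))

end

open Classical in
/-- send the labels, then flood the verdicts for `K` rounds -/
noncomputable def flood (G : SimpleGraph V) {n : ℕ} (len : V → V → ℕ)
    (A : V → V → (Fin n → Bool) → List Bool) (K : ℕ) : Protocol G n where
  send v x r w :=
    if G.Adj v w then A v w x ++ (List.range (cnt G len K v r)).map (sb G len A v x r) else []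
  out v x r := if Avail G len v r K then some (sb G len A v x r K) else none
  send_adj v x r w h := if_neg h
  send_mono v x r r' h w := by
    split_ifs with h1
    · rw [List.prefix_append_right_inj]
      have h2 : (List.range (cnt G len K v r)).map (sb G len A v x r)
          = (List.range (cnt G len K v r)).map (sb G len A v x r') :=
        List.map_congr_left fun i hi => sb_congr (avail_of_lt (List.mem_range.1 hi)) h
      rw [h2]
      refine List.IsPrefix.map _ ?_
      obtain ⟨d, hd⟩ := Nat.exists_eq_add_of_le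
        (cnt_mono (G := G) (len := len) (K := K) (v := v) fun u => (h u).length_le)
      rw [hd, List.range_add]
      exact List.prefix_append _ _
    · exact List.prefix_refl _
  out_mono v x r r' b h hb := by
    by_cases h1 : Avail G len v r K
    · rw [if_pos h1] at hb
      rw [if_pos (h1.mono fun u => (h u).length_le), ← sb_congr h1 h]
      exact hb
    · rw [if_neg h1] at hb
      exact absurd hb (by simp)

theorem run_mono {G : SimpleGraph V} {n : ℕ} (P : Protocol G n) (x : V → Fin n → Bool) :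
    ∀ t v w, P.run x t v w <+: P.run x (t + 1) v w := by
  intro t
  induction t with
  | zero => intro v w; exact List.nil_prefix
  | succ t ih => intro v w; exact P.send_mono v (x v) _ _ (fun u => ih u v) w

section
variable {G : SimpleGraph V} {n : ℕ} {len : V → V → ℕ} {A : V → V → (Fin n → Bool) → List Bool}
  {K : ℕ}

theorem flood_run_adj (x : V → Fin n → Bool) (t : ℕ) {v w : V} (h : G.Adj v w) :
    (flood G len A K).run x (t + 1) v w = A v w (x v) ++
      (List.range (cnt G len K v fun u => (flood G len A K).run x t u v)).map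
        (sb G len A v (x v) fun u => (flood G len A K).run x t u v) := if_pos h

theorem flood_run_nadj (x : V → Fin n → Bool) (t : ℕ) {v w : V} (h : ¬ G.Adj v w) :
    (flood G len A K).run x (t + 1) v w = [] := if_neg h

theorem flood_len (hA : ∀ u w x, (A u w x).length = len u w) (x : V → Fin n → Bool) (t : ℕ)
    {v w : V} (h : G.Adj v w) : ((flood G len A K).run x (t + 1) v w).length
      = len v w + cnt G len K v fun u => (flood G len A K).run x t u v := by
  rw [flood_run_adj x t h]; simp [hA]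

theorem flood_static (hA : ∀ u w x, (A u w x).length = len u w) : (flood G len A K).Static := by
  intro x y t
  induction t with
  | zero => intro v w; rfl
  | succ t ih =>
    intro v w
    by_cases h : G.Adj v w
    · rw [flood_len hA x t h, flood_len hA y t h]
      congr 1
      exact le_antisymm (cnt_mono fun u => (ih u v).le) (cnt_mono fun u => (ih u v).ge)
    · rw [flood_run_nadj x t h, flood_run_nadj y t h]

theorem flood_progress (hA : ∀ u w x, (A u w x).length = len u w) (x : V → Fin n → Bool) (t : ℕ) :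
    ∀ v w, G.Adj v w → len v w + min K t ≤ ((flood G len A K).run x (t + 1) v w).length := by
  induction t with
  | zero => intro v w h; rw [flood_len hA x 0 h]; omega
  | succ t ih =>
    intro v w h
    rw [flood_len hA x _ h]
    refine Nat.add_le_add_left (le_cnt (min_le_left _ _) fun i hi u hu => ?_) _
    have := ih u v hu
    omega

theorem flood_final_len (hA : ∀ u w x, (A u w x).length = len u w) (x : V → Fin n → Bool) {t : ℕ}
    (ht : K ≤ t) {v w : V} (h : G.Adj v w) :
    ((flood G len A K).run x (t + 1) v w).length = len v w + K := by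
  have h1 := flood_progress (K := K) hA x t v w h
  have h2 := flood_len (K := K) hA x t h
  have h3 := cnt_le (G := G) (len := len) K v fun u => (flood G len A K).run x t u v
  omega

theorem flood_fix (hA : ∀ u w x, (A u w x).length = len u w) (x : V → Fin n → Bool) :
    (flood G len A K).run x (K + 1 + 1) = (flood G len A K).run x (K + 1) := by
  funext v w
  by_cases h : G.Adj v w
  · refine ((run_mono _ x (K + 1) v w).eq_of_length ?_).symm
    rw [flood_final_len hA x le_rfl h, flood_final_len hA x (by omega) h]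
  · rw [flood_run_nadj x _ h, flood_run_nadj x _ h]

theorem flood_decides [Fintype V] [DecidableEq V] (hG : G.Connected)
    (hA : ∀ u w x, (A u w x).length = len u w) (hl : ∀ u w, ¬ G.Adj u w → len u w = 0)
    (hs : ∀ x : V → Fin n → Bool, (∀ u w, A u w (x u) = A u w (x w)) → ∀ u w, x u = x w) :
    (flood G len A (Fintype.card V)).Decides
      (∑ v, ∑ w, len v w + Fintype.card V * (Fintype.card V * Fintype.card V)) := by
  intro x
  set K := Fintype.card V with hK
  refine ⟨K + 1, flood_fix hA x, ?_, ?_⟩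
  · calc ∑ v, ∑ w, ((flood G len A K).run x (K + 1) v w).length ≤ ∑ v, ∑ w, (len v w + K) := by
          refine Finset.sum_le_sum fun v _ => Finset.sum_le_sum fun w _ => ?_
          by_cases h : G.Adj v w
          · exact (flood_final_len hA x le_rfl h).le
          · rw [flood_run_nadj x _ h]; simp
      _ = _ := by simp [Finset.sum_add_distrib, hK]
  set T := (flood G len A K).run x (K + 1) with hT
  set σ : V → ℕ → Bool := fun v i => sb G len A v (x v) (fun u => T u v) i with hσ
  have hav : ∀ v, Avail G len v (fun u => T u v) K := fun v u hu =>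
    (flood_final_len hA x le_rfl hu).ge
  have hTeq : ∀ v w, G.Adj v w → T v w = A v w (x v) ++ (List.range K).map (σ v) := by
    intro v w h
    have h1 := congrFun (congrFun (flood_fix (G := G) (K := K) hA x) v) w
    rw [flood_run_adj x _ h, ← hT] at h1
    have h2 : (cnt G len K v fun u => T u v) = K :=
      le_antisymm (cnt_le _ _ _) (le_cnt le_rfl fun i hi u hu =>
        le_trans (Nat.add_le_add_left hi.le _) (hav v u hu))
    rw [h2] at h1
    exact h1.symm
  have hσiff : ∀ v i, i ≤ K → (σ v i = true ↔ (∀ u, G.Adj u v → A u v (x u) = A u v (x v)) ∧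
      ∀ j < i, ∀ u, G.Adj u v → σ u j = true) := by
    intro v i hi
    simp only [hσ, sb, decide_eq_true_eq]
    refine and_congr (forall₂_congr fun u hu => ?_)
      (forall₂_congr fun j hj => forall₂_congr fun u hu => ?_)
    · rw [hTeq u v hu, List.take_left' (hA _ _ _)]
    · rw [hTeq u v hu, List.getD_append_right _ _ _ _ (by rw [hA]; omega), hA,
        Nat.add_sub_cancel_left, List.getD_eq_getElem _ _ (by simp; omega)]
      simp [hσ, sb]
  intro v
  refine ⟨σ v K, if_pos (hav v), fun h => hs x fun u w => ?_, fun h => ?_⟩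
  · by_cases huw : G.Adj u w
    · have key : ∀ {a b : V} (p : G.Walk a b) (i : ℕ), p.length ≤ i → i ≤ K → σ a i = true →
          ∀ c, G.Adj c b → A c b (x c) = A c b (x b) := by
        intro a b p
        induction p with
        | nil => intro i _ h2 h3; exact ((hσiff _ i h2).1 h3).1
        | cons h' p ih =>
          intro i h1 h2 h3
          rw [SimpleGraph.Walk.length_cons] at h1
          exact ih (i - 1) (by omega) (by omega)
            (((hσiff _ i h2).1 h3).2 (i - 1) (by omega) _ h'.symm)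
      obtain ⟨p, hp⟩ := (hG.preconnected v w).exists_isPath
      exact key p K hp.length_lt.le le_rfl h u huw
    · rw [List.eq_nil_of_length_eq_zero ((hA u w _).trans (hl u w huw)),
        List.eq_nil_of_length_eq_zero ((hA u w _).trans (hl u w huw))]
  · have key : ∀ i, i ≤ K → ∀ a, σ a i = true := by
      intro i
      induction i using Nat.strong_induction_on with
      | _ i ih =>
        intro hi a
        exact (hσiff a i hi).2 ⟨fun u _ => by rw [h u a], fun j hj u _ => ih j hj (by omega) u⟩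
    exact key K le_rfl v

end

end Pool.Agent.MP_bf2f06_lc

end

-- part MP_bf2f06_lc.Main
section

namespace Pool.Agent.MP_bf2f06_lc

open Finset Filter Topology

variable {V : Type} [Fintype V] [DecidableEq V]

theorem exists_protocol {G : SimpleGraph V} (hG : G.Connected) (hV : 2 ≤ Fintype.card V) {F : ℝ}
    (hF : fc G < F) (m : ℕ) (hm : 2 ≤ m) :
    ∃ K : ℝ, ∀ n : ℕ, ∃ c : ℕ, (∃ P : Protocol G n, P.Static ∧ P.Decides c) ∧
      (c : ℝ) ≤ (m * F + Fintype.card V * Fintype.card V) / (m - 1) * n + K := by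
  classical
  obtain ⟨p, hp1, hp2⟩ := lp_int hG hF m
  set s : (Σ d : Arc G, Fin (p d)) → V := fun e => e.1.1.1 with hs
  set t : (Σ d : Arc G, Fin (p d)) → V := fun e => e.1.1.2 with ht
  have hconn : Conn s t m := by
    intro S h1 h2
    refine (hp2 ⟨S, h1, h2⟩).trans (le_of_eq ?_)
    rw [Finset.card_filter, Fintype.sum_sigma]
    refine Finset.sum_congr rfl fun d _ => ?_
    by_cases h : (d.1.1 ∈ S ↔ d.1.2 ∈ S) <;> simp [hs, ht, h]
  obtain ⟨K, hK⟩ := exists_scheme hconn hV hm
  set B : ℝ := (m * F + Fintype.card V * Fintype.card V) / (m - 1) with hB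
  refine ⟨B * K + (Fintype.card V * (Fintype.card V * Fintype.card V) : ℕ), fun n => ?_⟩
  obtain ⟨β, hβ, A, hA1, hA2⟩ := hK n
  refine ⟨_, ⟨_, flood_static hA1, flood_decides hG hA1 (fun u w h => ?_) hA2⟩, ?_⟩
  · rw [Finset.filter_false_of_mem, Finset.card_empty, zero_mul]
    rintro e _ ⟨rfl, rfl⟩
    exact h e.1.2
  have h1 : ∑ u, ∑ w, (Finset.univ.filter fun e => s e = u ∧ t e = w).card * β
      = (∑ d, p d) * β := by
    simp only [← Finset.sum_mul]
    congr 1
    have := Finset.card_eq_sum_card_fiberwise (s := Finset.univ) (t := Finset.univ)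
      (f := fun e => (s e, t e)) (fun _ _ => Finset.mem_coe.2 (Finset.mem_univ _))
    rw [Fintype.sum_prod_type] at this
    simp only [Prod.mk.injEq] at this
    rw [← this]
    simp
  rw [h1]
  have hm1 : (0 : ℝ) < m - 1 := by
    have : (2 : ℝ) ≤ m := by exact_mod_cast hm
    linarith
  have h2 : (β : ℝ) ≤ (n + K) / (m - 1) := by
    rw [le_div_iff₀ hm1]
    have : (((m - 1) * β : ℕ) : ℝ) ≤ (n + K : ℕ) := by exact_mod_cast hβ
    rw [Nat.cast_mul, Nat.cast_sub (by omega)] at this
    push_cast at this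
    linarith
  have h3 : ((∑ d, p d : ℕ) : ℝ) ≤ m * F + Fintype.card V * Fintype.card V := by
    refine hp1.trans ?_
    have : Fintype.card (Arc G) ≤ Fintype.card V * Fintype.card V :=
      (Fintype.card_subtype_le _).trans (by simp)
    have : (Fintype.card (Arc G) : ℝ) ≤ Fintype.card V * Fintype.card V := by exact_mod_cast this
    linarith
  have h4 : ((∑ d, p d : ℕ) : ℝ) * β ≤ (m * F + Fintype.card V * Fintype.card V)
      * ((n + K) / (m - 1)) :=
    mul_le_mul h3 h2 (Nat.cast_nonneg _) (le_trans (Nat.cast_nonneg _) h3)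
  have h5 : (m * F + Fintype.card V * Fintype.card V) * ((n + K) / (m - 1) : ℝ)
      = B * n + B * K := by rw [hB]; field_simp
  rw [Nat.cast_add, Nat.cast_mul]
  linarith

theorem f_nonempty {G : SimpleGraph V} (hG : G.Connected) (hV : 2 ≤ Fintype.card V)
    (static : Bool) (n : ℕ) :
    {c | ∃ P : Protocol G n, (static = true → P.Static) ∧ P.Decides c}.Nonempty := by
  obtain ⟨K, hK⟩ := exists_protocol hG hV (lt_add_one _) 2 le_rfl
  obtain ⟨c, ⟨P, h1, h2⟩, _⟩ := hK n
  exact ⟨c, P, fun _ => h1, h2⟩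

theorem upper_eventually {G : SimpleGraph V} (hG : G.Connected) (hV : 2 ≤ Fintype.card V)
    (static : Bool) {y : ℝ} (hy : fc G < y) : ∀ᶠ n : ℕ in atTop, (f G static n : ℝ) / n < y := by
  obtain ⟨F, hF1, hF2⟩ := exists_between hy
  obtain ⟨F', hF1', hF2'⟩ := exists_between hF2
  obtain ⟨m, hm2, hm⟩ : ∃ m : ℕ, 2 ≤ m ∧
      (m * F + Fintype.card V * Fintype.card V) / (m - 1) ≤ F' := by
    obtain ⟨m, hm⟩ := exists_nat_ge ((F' + Fintype.card V * Fintype.card V) / (F' - F))
    refine ⟨m + 2, by omega, ?_⟩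
    rw [div_le_iff₀ (by linarith)] at hm
    push_cast
    rw [div_le_iff₀ (by have : (0 : ℝ) ≤ m := Nat.cast_nonneg _; linarith)]
    nlinarith
  obtain ⟨K, hK⟩ := exists_protocol hG hV hF1 m hm2
  have h1 : ∀ᶠ n : ℕ in atTop, K / n < y - F' :=
    (tendsto_const_div_atTop_nhds_zero_nat K).eventually (gt_mem_nhds (by linarith))
  filter_upwards [h1, eventually_gt_atTop 0] with n h2 h3
  obtain ⟨c, ⟨P, h4, h5⟩, h6⟩ := hK n
  have h7 : f G static n ≤ c := Nat.sInf_le ⟨P, fun _ => h4, h5⟩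
  have h8 : (f G static n : ℝ) ≤ c := by exact_mod_cast h7
  have hn : (0 : ℝ) < n := by exact_mod_cast h3
  rw [div_lt_iff₀ hn] at h2 ⊢
  have := mul_le_mul_of_nonneg_right hm hn.le
  linarith

theorem count_eventually (N q : ℕ) {θ : ℝ} (h0 : 0 ≤ θ) (h1 : θ < 1) :
    ∀ᶠ n : ℕ in atTop, N * (2 ^ ⌊θ * n⌋₊ * (⌊θ * n⌋₊ + 1) ^ q) < 2 ^ n := by
  have hr : (1 : ℝ) < 2 ^ (1 - θ) := Real.one_lt_rpow (by norm_num) (by linarith)
  have h2 := ((tendsto_pow_const_div_const_pow_of_one_lt q hr).comp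
    (tendsto_add_atTop_nat 1)).const_mul ((N : ℝ) * 2 ^ (1 - θ))
  rw [mul_zero] at h2
  filter_upwards [h2.eventually (gt_mem_nhds one_pos)] with n hn
  simp only [Function.comp] at hn
  have hL : (⌊θ * n⌋₊ : ℝ) ≤ θ * n := Nat.floor_le (by positivity)
  have hL2 : (⌊θ * n⌋₊ : ℝ) ≤ n := hL.trans (mul_le_of_le_one_left (Nat.cast_nonneg _) h1.le)
  have h3 : (2 : ℝ) ^ ⌊θ * n⌋₊ * (2 ^ (1 - θ)) ^ n ≤ 2 ^ n := by
    rw [← Real.rpow_natCast, ← Real.rpow_natCast, ← Real.rpow_natCast,
      ← Real.rpow_mul (by norm_num), ← Real.rpow_add (by norm_num)]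
    exact Real.rpow_le_rpow_of_exponent_le (by norm_num) (by linarith)
  have hpos : (0 : ℝ) < (2 ^ (1 - θ)) ^ n := by positivity
  have h4 : (N : ℝ) * ((n + 1 : ℕ) : ℝ) ^ q < (2 ^ (1 - θ)) ^ n := by
    rw [pow_succ] at hn
    have e : (N : ℝ) * 2 ^ (1 - θ) * (((n + 1 : ℕ) : ℝ) ^ q / ((2 ^ (1 - θ)) ^ n * 2 ^ (1 - θ)))
        = N * ((n + 1 : ℕ) : ℝ) ^ q / (2 ^ (1 - θ)) ^ n := by field_simp
    rwa [e, div_lt_one hpos] at hn
  have h5 : (N : ℝ) * (2 ^ ⌊θ * n⌋₊ * ((⌊θ * n⌋₊ : ℝ) + 1) ^ q) < 2 ^ n := by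
    calc (N : ℝ) * (2 ^ ⌊θ * n⌋₊ * ((⌊θ * n⌋₊ : ℝ) + 1) ^ q)
        ≤ N * (2 ^ ⌊θ * n⌋₊ * ((n + 1 : ℕ) : ℝ) ^ q) := by push_cast; gcongr
      _ = 2 ^ ⌊θ * n⌋₊ * (N * ((n + 1 : ℕ) : ℝ) ^ q) := by ring
      _ < 2 ^ ⌊θ * n⌋₊ * (2 ^ (1 - θ)) ^ n := by gcongr
      _ ≤ _ := h3
  exact_mod_cast h5

theorem lower_eventually {G : SimpleGraph V} (hG : G.Connected) (hV : 2 ≤ Fintype.card V)
    (static : Bool) {y : ℝ} (hy : y < fc G) : ∀ᶠ n : ℕ in atTop, y < (f G static n : ℝ) / n := by
  rcases lt_or_ge y 0 with h0 | h0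
  · exact Eventually.of_forall fun n => h0.trans_le (by positivity)
  obtain ⟨y', hy1, hy2⟩ := exists_between hy
  have hF : 0 < fc G := by linarith
  have h1 := count_eventually (Fintype.card (Cut V)) (Fintype.card (V × V)) (θ := y' / fc G)
    (div_nonneg (by linarith) hF.le) ((div_lt_one hF).2 hy2)
  have h2 : ∀ᶠ n : ℕ in atTop, fc G / n < y' - y :=
    (tendsto_const_div_atTop_nhds_zero_nat _).eventually (gt_mem_nhds (by linarith))
  filter_upwards [h1, h2, eventually_gt_atTop 0] with n h3 h4 h5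
  obtain ⟨P, _, hP⟩ : f G static n ∈
    {c | ∃ P : Protocol G n, (static = true → P.Static) ∧ P.Decides c} :=
    Nat.sInf_mem (f_nonempty hG hV static n)
  have hn : (0 : ℝ) < n := by exact_mod_cast h5
  have h6 : (⌊y' / fc G * n⌋₊ : ℝ) * fc G ≤ f G static n := by
    rcases Nat.eq_zero_or_pos ⌊y' / fc G * n⌋₊ with e | e
    · rw [e]; simp
    · have e' : (0 : ℝ) < ⌊y' / fc G * n⌋₊ := by exact_mod_cast e
      rw [mul_comm, ← le_div_iff₀ e']
      refine fc_le fun g hg => ?_
      rw [le_div_iff₀ e', mul_comm]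
      exact lower_bound P hP h3 g hg
  have h7 := Nat.lt_floor_add_one (y' / fc G * n)
  have h8 : y' * n < (⌊y' / fc G * n⌋₊ + 1) * fc G := by
    have := mul_lt_mul_of_pos_right h7 hF
    rwa [show y' / fc G * n * fc G = y' * n by field_simp] at this
  rw [div_lt_iff₀ hn] at h4
  rw [lt_div_iff₀ hn]
  nlinarith

theorem main (G : SimpleGraph V) (hG : G.Connected) (hV : 2 ≤ Fintype.card V) (static : Bool) :
    Tendsto (fun n : ℕ => (f G static n : ℝ) / n) atTop (𝓝 (fc G)) :=
  tendsto_order.2 ⟨fun _ h => lower_eventually hG hV static h,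
    fun _ h => upper_eventually hG hV static h⟩

end Pool.Agent.MP_bf2f06_lc

end
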